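import Mathlib

/-!
# Combinatorial isomorphisms between representation polytopes

For a finite matrix group `G` let `P(G)` be the convex hull of `G`. The question is whether every
combinatorial symmetry of every `P(G)` is affine. We show that this is equivalent to the statement
that every combinatorial isomorphism between two representation polytopes `P(G)` and `P(H)`, of
matrices of arbitrary sizes, is affine.

Proof. For the group `G × H` of block diagonal matrices, `P(G × H) = P(G) × P(H)`. Its nonempty faces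
are the products of faces, so for a combinatorial isomorphism `φ` the map
`(g, h) ↦ (φ⁻¹ h, φ g)` is a combinatorial symmetry of `P(G × H)`. If it is affine then so are `φ` and
`φ⁻¹`.
-/

set_option autoImplicit false

namespace Pool.Agent.Results.MP_69dac2_co.PairsOfGroups

open Matrix

/-- the set `S` of vertices of `P(G)` is the vertex set of a face, i.e. the set of the vertices where
some linear function `M ↦ ∑ A i j M i j` attains a value `c` that it does not exceed on `G` (the empty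
set is one of them) -/
def IsFace {d : ℕ} (G : Subgroup (GL (Fin d) ℝ)) (S : Set G) : Prop :=
  ∃ A : Matrix (Fin d) (Fin d) ℝ, ∃ c : ℝ,
    (∀ g : G, ∑ i, ∑ j, A i j * (g.1 : Matrix (Fin d) (Fin d) ℝ) i j ≤ c) ∧
    ∀ g : G, (g ∈ S ↔ ∑ i, ∑ j, A i j * (g.1 : Matrix (Fin d) (Fin d) ℝ) i j = c)

/-- the bijection `φ` of the vertices of `P(G)` and `P(H)` is a combinatorial isomorphism -/
def CombIso {d e : ℕ} (G : Subgroup (GL (Fin d) ℝ)) (H : Subgroup (GL (Fin e) ℝ)) (φ : G ≃ H) :
    Prop :=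
  ∀ S : Set G, IsFace G S ↔ IsFace H (φ '' S)

/-- the map `φ` is the restriction of an affine map -/
def IsAffine {d e : ℕ} (G : Subgroup (GL (Fin d) ℝ)) (H : Subgroup (GL (Fin e) ℝ)) (φ : G → H) :
    Prop :=
  ∃ f : Matrix (Fin d) (Fin d) ℝ →ᵃ[ℝ] Matrix (Fin e) (Fin e) ℝ,
    ∀ g : G, f (g.1 : Matrix (Fin d) (Fin d) ℝ) = ((φ g).1 : Matrix (Fin e) (Fin e) ℝ)

/-- the conclusion of the question for the group `G` -/
def Agree {d : ℕ} (G : Subgroup (GL (Fin d) ℝ)) : Prop :=
  ∀ σ : Equiv.Perm G, CombIso G G σ → IsAffine G G σ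

variable {d e : ℕ}

/-- the block diagonal matrix with the blocks `M` and `N` -/
def block (M : Matrix (Fin d) (Fin d) ℝ) (N : Matrix (Fin e) (Fin e) ℝ) :
    Matrix (Fin (d + e)) (Fin (d + e)) ℝ :=
  (fromBlocks M 0 0 N).submatrix finSumFinEquiv.symm finSumFinEquiv.symm

/-- block diagonal matrices, as a homomorphism -/
def blockHom (d e : ℕ) : GL (Fin d) ℝ × GL (Fin e) ℝ →* GL (Fin (d + e)) ℝ :=
  (Units.map
    { toFun := fun p : Matrix (Fin d) (Fin d) ℝ × Matrix (Fin e) (Fin e) ℝ => block p.1 p.2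
      map_one' := by
        show block 1 1 = 1
        unfold block
        rw [fromBlocks_one]
        exact submatrix_one_equiv _
      map_mul' := fun p q => by
        show block (p.1 * q.1) (p.2 * q.2) = block p.1 p.2 * block q.1 q.2
        unfold block
        rw [submatrix_mul_equiv, fromBlocks_multiply]
        simp }).comp
    (MulEquiv.prodUnits.symm : (GL (Fin d) ℝ × GL (Fin e) ℝ) ≃*
      (Matrix (Fin d) (Fin d) ℝ × Matrix (Fin e) (Fin e) ℝ)ˣ).toMonoidHom

/-- the group of the block diagonal matrices with one block in `G` and the other in `H` -/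
def blockProd (G : Subgroup (GL (Fin d) ℝ)) (H : Subgroup (GL (Fin e) ℝ)) :
    Subgroup (GL (Fin (d + e)) ℝ) :=
  (G.prod H).map (blockHom d e)

/-! ### proofs -/

theorem blockHom_val (p : GL (Fin d) ℝ × GL (Fin e) ℝ) :
    ((blockHom d e p : GL (Fin (d + e)) ℝ) : Matrix (Fin (d + e)) (Fin (d + e)) ℝ) =
      block (p.1 : Matrix (Fin d) (Fin d) ℝ) (p.2 : Matrix (Fin e) (Fin e) ℝ) := rfl

theorem block_ll (M : Matrix (Fin d) (Fin d) ℝ) (N : Matrix (Fin e) (Fin e) ℝ) (i j : Fin d) :
    block M N (Fin.castAdd e i) (Fin.castAdd e j) = M i j := by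
  simp [block]

theorem block_rr (M : Matrix (Fin d) (Fin d) ℝ) (N : Matrix (Fin e) (Fin e) ℝ) (i j : Fin e) :
    block M N (Fin.natAdd d i) (Fin.natAdd d j) = N i j := by
  simp [block]

theorem block_lr (M : Matrix (Fin d) (Fin d) ℝ) (N : Matrix (Fin e) (Fin e) ℝ) (i : Fin d)
    (j : Fin e) : block M N (Fin.castAdd e i) (Fin.natAdd d j) = 0 := by
  simp [block]

theorem block_rl (M : Matrix (Fin d) (Fin d) ℝ) (N : Matrix (Fin e) (Fin e) ℝ) (i : Fin e)
    (j : Fin d) : block M N (Fin.natAdd d i) (Fin.castAdd e j) = 0 := by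
  simp [block]

/-- the linear function with the coefficients `A` -/
def L {n : ℕ} (A M : Matrix (Fin n) (Fin n) ℝ) : ℝ := ∑ i, ∑ j, A i j * M i j

theorem L_block (A : Matrix (Fin (d + e)) (Fin (d + e)) ℝ) (M : Matrix (Fin d) (Fin d) ℝ)
    (N : Matrix (Fin e) (Fin e) ℝ) :
    L A (block M N) = L (A.submatrix (Fin.castAdd e) (Fin.castAdd e)) M +
      L (A.submatrix (Fin.natAdd d) (Fin.natAdd d)) N := by
  unfold L
  rw [Fin.sum_univ_add]
  congr 1
  · refine Finset.sum_congr rfl fun i _ => ?_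
    rw [Fin.sum_univ_add]
    simp [block_ll, block_lr]
  · refine Finset.sum_congr rfl fun i _ => ?_
    rw [Fin.sum_univ_add]
    simp [block_rl, block_rr]

theorem L_block_block (A : Matrix (Fin d) (Fin d) ℝ) (B : Matrix (Fin e) (Fin e) ℝ)
    (M : Matrix (Fin d) (Fin d) ℝ) (N : Matrix (Fin e) (Fin e) ℝ) :
    L (block A B) (block M N) = L A M + L B N := by
  rw [L_block]
  congr 2
  · ext i j; exact block_ll A B i j
  · ext i j; exact block_rr A B i j

theorem block_inj {M M' : Matrix (Fin d) (Fin d) ℝ} {N N' : Matrix (Fin e) (Fin e) ℝ}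
    (h : block M N = block M' N') : M = M' ∧ N = N' := by
  constructor
  · ext i j
    rw [← block_ll M N, h, block_ll]
  · ext i j
    rw [← block_rr M N, h, block_rr]

theorem blockHom_injective : Function.Injective (blockHom d e) := by
  intro p q h
  have h1 : block (p.1 : Matrix (Fin d) (Fin d) ℝ) (p.2 : Matrix (Fin e) (Fin e) ℝ) =
      block (q.1 : Matrix (Fin d) (Fin d) ℝ) (q.2 : Matrix (Fin e) (Fin e) ℝ) := by
    rw [← blockHom_val, ← blockHom_val, h]
  obtain ⟨h2, h3⟩ := block_inj h1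
  exact Prod.ext (Units.ext h2) (Units.ext h3)

/-- the elements of the block diagonal group are the pairs -/
noncomputable def pairs (G : Subgroup (GL (Fin d) ℝ)) (H : Subgroup (GL (Fin e) ℝ)) :
    G × H ≃ blockProd G H :=
  Equiv.ofBijective (fun p => ⟨blockHom d e (p.1.1, p.2.1),
    Subgroup.mem_map.2 ⟨(p.1.1, p.2.1), ⟨p.1.2, p.2.2⟩, rfl⟩⟩) (by
    constructor
    · intro p q h
      have h1 := blockHom_injective (congrArg Subtype.val h)
      rw [Prod.mk.injEq] at h1
      exact Prod.ext (Subtype.ext h1.1) (Subtype.ext h1.2)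
    · rintro ⟨x, hx⟩
      obtain ⟨⟨g, h⟩, hp, rfl⟩ := Subgroup.mem_map.1 hx
      exact ⟨(⟨g, hp.1⟩, ⟨h, hp.2⟩), rfl⟩)

theorem pairs_val (G : Subgroup (GL (Fin d) ℝ)) (H : Subgroup (GL (Fin e) ℝ)) (p : G × H) :
    (((pairs G H p).1 : GL (Fin (d + e)) ℝ) : Matrix (Fin (d + e)) (Fin (d + e)) ℝ) =
      block (p.1.1 : Matrix (Fin d) (Fin d) ℝ) (p.2.1 : Matrix (Fin e) (Fin e) ℝ) := rfl

theorem isFace_iff {G : Subgroup (GL (Fin d) ℝ)} {S : Set G} : IsFace G S ↔
    ∃ A : Matrix (Fin d) (Fin d) ℝ, ∃ c : ℝ, (∀ g : G, L A (g.1 : Matrix (Fin d) (Fin d) ℝ) ≤ c) ∧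
      ∀ g : G, (g ∈ S ↔ L A (g.1 : Matrix (Fin d) (Fin d) ℝ) = c) := Iff.rfl

theorem isFace_empty (G : Subgroup (GL (Fin d) ℝ)) : IsFace G ∅ :=
  ⟨0, 1, fun g => by simp, fun g => by simp⟩

theorem prodFace (G : Subgroup (GL (Fin d) ℝ)) (H : Subgroup (GL (Fin e) ℝ))
    (S : Set (G × H)) : IsFace (blockProd G H) (pairs G H '' S) ↔
      ∃ S₁ S₂, IsFace G S₁ ∧ IsFace H S₂ ∧ S = S₁ ×ˢ S₂ := by
  constructor
  · intro h
    obtain ⟨A, c, h1, h2⟩ := isFace_iff.1 h
    rcases S.eq_empty_or_nonempty with rfl | ⟨⟨g0, h0⟩, hs⟩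
    · exact ⟨∅, ∅, isFace_empty G, isFace_empty H, by simp⟩
    set A₁ := A.submatrix (Fin.castAdd e) (Fin.castAdd e)
    set A₂ := A.submatrix (Fin.natAdd d) (Fin.natAdd d)
    have h3 : ∀ p : G × H, L A₁ (p.1.1 : Matrix (Fin d) (Fin d) ℝ) +
        L A₂ (p.2.1 : Matrix (Fin e) (Fin e) ℝ) ≤ c := by
      intro p
      have := h1 (pairs G H p)
      rwa [pairs_val, L_block] at this
    have h4 : ∀ p : G × H, p ∈ S ↔ L A₁ (p.1.1 : Matrix (Fin d) (Fin d) ℝ) +
        L A₂ (p.2.1 : Matrix (Fin e) (Fin e) ℝ) = c := by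
      intro p
      have := h2 (pairs G H p)
      rwa [pairs_val, L_block, (pairs G H).injective.mem_set_image] at this
    have h5 := (h4 _).1 hs
    refine ⟨{g | L A₁ (g.1 : Matrix (Fin d) (Fin d) ℝ) = L A₁ (g0.1 : Matrix (Fin d) (Fin d) ℝ)},
      {k | L A₂ (k.1 : Matrix (Fin e) (Fin e) ℝ) = L A₂ (h0.1 : Matrix (Fin e) (Fin e) ℝ)},
      isFace_iff.2 ⟨A₁, _, fun g => ?_, fun g => Iff.rfl⟩,
      isFace_iff.2 ⟨A₂, _, fun k => ?_, fun k => Iff.rfl⟩, ?_⟩
    · have := h3 (g, h0)
      simp only at this h5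
      linarith
    · have := h3 (g0, k)
      simp only at this h5
      linarith
    · ext ⟨g, k⟩
      rw [h4, Set.mem_prod, Set.mem_ofPred_eq, Set.mem_ofPred_eq]
      have h6 := h3 (g, h0)
      have h7 := h3 (g0, k)
      simp only at h5 h6 h7 ⊢
      constructor
      · intro h8
        constructor <;> linarith
      · rintro ⟨h8, h9⟩
        linarith
  · rintro ⟨S₁, S₂, h1, h2, rfl⟩
    obtain ⟨A, a, hA, hA'⟩ := isFace_iff.1 h1
    obtain ⟨B, b, hB, hB'⟩ := isFace_iff.1 h2
    refine isFace_iff.2 ⟨block A B, a + b, fun x => ?_, fun x => ?_⟩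
    · obtain ⟨p, rfl⟩ := (pairs G H).surjective x
      rw [pairs_val, L_block_block]
      exact add_le_add (hA _) (hB _)
    · obtain ⟨p, rfl⟩ := (pairs G H).surjective x
      rw [pairs_val, L_block_block, (pairs G H).injective.mem_set_image, Set.mem_prod, hA', hB']
      have h3 := hA p.1
      have h4 := hB p.2
      constructor
      · rintro ⟨h5, h6⟩
        rw [h5, h6]
      · intro h5
        constructor <;> linarith

theorem CombIso.symm' {G : Subgroup (GL (Fin d) ℝ)} {H : Subgroup (GL (Fin e) ℝ)} {φ : G ≃ H}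
    (h : CombIso G H φ) : CombIso H G φ.symm := by
  intro T
  rw [h (φ.symm '' T)]
  rw [← Set.image_comp]
  simp

/-- the swap -/
noncomputable def swp {G : Subgroup (GL (Fin d) ℝ)} {H : Subgroup (GL (Fin e) ℝ)} (φ : G ≃ H) :
    Equiv.Perm (G × H) where
  toFun p := (φ.symm p.2, φ p.1)
  invFun p := (φ.symm p.2, φ p.1)
  left_inv p := by simp
  right_inv p := by simp

theorem swp_image {G : Subgroup (GL (Fin d) ℝ)} {H : Subgroup (GL (Fin e) ℝ)} (φ : G ≃ H)
    (S₁ : Set G) (S₂ : Set H) : swp φ '' (S₁ ×ˢ S₂) = (φ.symm '' S₂) ×ˢ (φ '' S₁) := by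
  ext ⟨g, k⟩
  simp only [Set.mem_image, Set.mem_prod, Prod.exists, swp, Equiv.coe_fn_mk, Prod.mk.injEq]
  constructor
  · rintro ⟨a, b, ⟨h1, h2⟩, h3, h4⟩
    exact ⟨⟨b, h2, h3⟩, ⟨a, h1, h4⟩⟩
  · rintro ⟨⟨b, h2, h3⟩, ⟨a, h1, h4⟩⟩
    exact ⟨a, b, ⟨h1, h2⟩, h3, h4⟩

theorem swp_face {G : Subgroup (GL (Fin d) ℝ)} {H : Subgroup (GL (Fin e) ℝ)} {φ : G ≃ H}
    (h : CombIso G H φ) (S : Set (G × H)) (hS : IsFace (blockProd G H) (pairs G H '' S)) :
    IsFace (blockProd G H) (pairs G H '' (swp φ '' S)) := by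
  obtain ⟨S₁, S₂, h1, h2, rfl⟩ := (prodFace G H S).1 hS
  rw [swp_image]
  exact (prodFace G H _).2 ⟨_, _, (h.symm' S₂).1 h2, (h S₁).1 h1, rfl⟩

theorem swp_comb {G : Subgroup (GL (Fin d) ℝ)} {H : Subgroup (GL (Fin e) ℝ)} {φ : G ≃ H}
    (h : CombIso G H φ) : CombIso (blockProd G H) (blockProd G H)
      ((pairs G H).symm.trans ((swp φ).trans (pairs G H))) := by
  intro T
  obtain ⟨S, rfl⟩ : ∃ S, T = pairs G H '' S := ⟨(pairs G H).symm '' T, by
    rw [← Set.image_comp]; simp⟩
  have h1 : ((pairs G H).symm.trans ((swp φ).trans (pairs G H))) '' (pairs G H '' S) =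
      pairs G H '' (swp φ '' S) := by
    rw [← Set.image_comp, ← Set.image_comp]
    refine Set.image_congr fun x _ => ?_
    simp
  rw [h1]
  constructor
  · exact swp_face h S
  · intro h2
    have h3 := swp_face h _ h2
    have h4 : swp φ '' (swp φ '' S) = S := by
      rw [← Set.image_comp]
      have : (swp φ : G × H → G × H) ∘ (swp φ : G × H → G × H) = id := by
        funext p
        exact (swp φ).left_inv p
      rw [this, Set.image_id]
    rwa [h4] at h3

/-- the block diagonal matrices with lower block `0` -/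
def incl (d e : ℕ) : Matrix (Fin d) (Fin d) ℝ →ₗ[ℝ] Matrix (Fin (d + e)) (Fin (d + e)) ℝ where
  toFun M := block M 0
  map_add' M M' := by
    unfold block
    ext i j
    rcases h1 : finSumFinEquiv.symm i with a | a <;> rcases h2 : finSumFinEquiv.symm j with b | b <;>
      simp [h1, h2]
  map_smul' c M := by
    unfold block
    ext i j
    rcases h1 : finSumFinEquiv.symm i with a | a <;> rcases h2 : finSumFinEquiv.symm j with b | b <;>
      simp [h1, h2]

/-- the block diagonal matrices with upper block `0` -/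
def incr (d e : ℕ) : Matrix (Fin e) (Fin e) ℝ →ₗ[ℝ] Matrix (Fin (d + e)) (Fin (d + e)) ℝ where
  toFun M := block 0 M
  map_add' M M' := by
    unfold block
    ext i j
    rcases h1 : finSumFinEquiv.symm i with a | a <;> rcases h2 : finSumFinEquiv.symm j with b | b <;>
      simp [h1, h2]
  map_smul' c M := by
    unfold block
    ext i j
    rcases h1 : finSumFinEquiv.symm i with a | a <;> rcases h2 : finSumFinEquiv.symm j with b | b <;>
      simp [h1, h2]

theorem incl_add_incr (M : Matrix (Fin d) (Fin d) ℝ) (N : Matrix (Fin e) (Fin e) ℝ) :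
    incl d e M + incr d e N = block M N := by
  show block M 0 + block 0 N = block M N
  unfold block
  ext i j
  rcases h1 : finSumFinEquiv.symm i with a | a <;> rcases h2 : finSumFinEquiv.symm j with b | b <;>
    simp [h1, h2]

/-- a submatrix, as a linear map -/
def sub {m n : ℕ} (t : Fin m → Fin n) : Matrix (Fin n) (Fin n) ℝ →ₗ[ℝ] Matrix (Fin m) (Fin m) ℝ where
  toFun X := X.submatrix t t
  map_add' _ _ := rfl
  map_smul' _ _ := rfl

theorem main {G : Subgroup (GL (Fin d) ℝ)} {H : Subgroup (GL (Fin e) ℝ)}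
    (hK : Agree (blockProd G H)) (φ : G ≃ H) (h : CombIso G H φ) :
    IsAffine G H φ ∧ IsAffine H G φ.symm := by
  obtain ⟨f, hf⟩ := hK _ (swp_comb h)
  have hf' : ∀ p : G × H, f (block (p.1.1 : Matrix (Fin d) (Fin d) ℝ)
      (p.2.1 : Matrix (Fin e) (Fin e) ℝ)) = block ((φ.symm p.2).1 : Matrix (Fin d) (Fin d) ℝ)
        ((φ p.1).1 : Matrix (Fin e) (Fin e) ℝ) := by
    intro p
    have h1 := hf (pairs G H p)
    rw [pairs_val] at h1
    rw [h1]
    simp only [Equiv.trans_apply, Equiv.symm_apply_apply]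
    rw [pairs_val]
    rfl
  constructor
  · refine ⟨(sub (Fin.natAdd d)).toAffineMap.comp (f.comp ((incl d e).toAffineMap +
      AffineMap.const ℝ _ (incr d e ((1 : H).1 : Matrix (Fin e) (Fin e) ℝ)))), fun g => ?_⟩
    have h1 := hf' (g, 1)
    rw [← incl_add_incr] at h1
    refine (congrArg (fun X : Matrix (Fin (d + e)) (Fin (d + e)) ℝ =>
      X.submatrix (Fin.natAdd d) (Fin.natAdd d)) h1).trans ?_
    ext i j
    exact block_rr _ _ i j
  · refine ⟨(sub (Fin.castAdd e)).toAffineMap.comp (f.comp ((incr d e).toAffineMap +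
      AffineMap.const ℝ _ (incl d e ((1 : G).1 : Matrix (Fin d) (Fin d) ℝ)))), fun k => ?_⟩
    have h1 := hf' (1, k)
    rw [← incl_add_incr, add_comm (incl d e _) (incr d e _)] at h1
    refine (congrArg (fun X : Matrix (Fin (d + e)) (Fin (d + e)) ℝ =>
      X.submatrix (Fin.castAdd e) (Fin.castAdd e)) h1).trans ?_
    ext i j
    exact block_ll _ _ i j

theorem finite_blockProd {G : Subgroup (GL (Fin d) ℝ)} {H : Subgroup (GL (Fin e) ℝ)}
    (hG : (G : Set (GL (Fin d) ℝ)).Finite) (hH : (H : Set (GL (Fin e) ℝ)).Finite) :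
    (blockProd G H : Set (GL (Fin (d + e)) ℝ)).Finite := by
  have : (blockProd G H : Set (GL (Fin (d + e)) ℝ)) = blockHom d e '' ((G : Set _) ×ˢ (H : Set _)) := by
    rfl
  rw [this]
  exact (hG.prod hH).image _

/-- **Theorem.** (1) If all combinatorial symmetries of the representation polytope of the block
diagonal group `G × H` are affine, then each combinatorial isomorphism `φ` between the representation
polytopes of the finite groups `G` and `H` is affine, and so is its inverse. (2) All combinatorial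
symmetries of all representation polytopes are affine if and only if all combinatorial isomorphisms
between any two representation polytopes are affine. -/
theorem result :
    (∀ (d e : ℕ) (G : Subgroup (GL (Fin d) ℝ)) (H : Subgroup (GL (Fin e) ℝ)),
      (G : Set (GL (Fin d) ℝ)).Finite → (H : Set (GL (Fin e) ℝ)).Finite →
      (blockProd G H : Set (GL (Fin (d + e)) ℝ)).Finite ∧
      (Agree (blockProd G H) → ∀ φ : G ≃ H, CombIso G H φ →
        IsAffine G H φ ∧ IsAffine H G φ.symm)) ∧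
    ((∀ (d : ℕ) (G : Subgroup (GL (Fin d) ℝ)), (G : Set (GL (Fin d) ℝ)).Finite → Agree G) ↔
      ∀ (d e : ℕ) (G : Subgroup (GL (Fin d) ℝ)) (H : Subgroup (GL (Fin e) ℝ)),
        (G : Set (GL (Fin d) ℝ)).Finite → (H : Set (GL (Fin e) ℝ)).Finite →
        ∀ φ : G ≃ H, CombIso G H φ → IsAffine G H φ) := by
  refine ⟨fun d e G H hG hH => ⟨finite_blockProd hG hH, fun hK φ h => main hK φ h⟩, ?_, ?_⟩
  · intro hQ d e G H hG hH φ h
    exact (main (hQ _ _ (finite_blockProd hG hH)) φ h).1
  · intro hQ d G hG σ hσ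
    exact hQ d d G G hG hG σ hσ

end Pool.Agent.Results.MP_69dac2_co.PairsOfGroups
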